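import Pool.Agent.Y482.Ph.Defs
import Pool.Agent.Y833.CB.Mn1
import Pool.Agent.Y590.CB.KF
import Pool.Agent.Y641.CB.SD3
import Pool.Agent.Y481.Wm

/-!
# MX, MXA: assembly of the expansions for closed 3-braids, with and without the braid axis
-/

set_option autoImplicit false

namespace Pool.Agent.Y852.PH.MX

open Finset Filter Topology Metric
open Pool.Agent.W711.HT
open Pool.Agent.Y472
open Pool.Agent.Y482.Ph
open Pool.Agent.Y481 (cw wts)
open Pool.Agent.W719.AX (UX EXY Rl ig cv)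
open scoped Real

/-- the conclusion of XLX, given the expansion of the kernel -/
def S_XLXC : Prop := ∀ (ρ₀ c C : ℝ) (s dl : ℂ → ℂ → ℂ → ℂ),
  SD3 ρ₀ c C s dl → ∀ k : ℕ, 1 ≤ k → ∃ R c' : ℝ, 0 < R ∧ R ≤ 1 ∧ R ≤ ρ₀ ∧ 0 < c' ∧
    ∃ B C' M : ℝ, 0 < B ∧ 0 < C' ∧ 0 < M ∧ ∀ ls : List (ℤ × ℤ), ls.length = k →
      (∀ p ∈ ls, M ≤ |(p.1 : ℝ)| ∧ M ≤ |(p.2 : ℝ)|) →
      ∃ (G : ℂ → ℂ) (z : ℂ → ℕ → ℂ) (A : ℕ → ℂ → ℂ),
        DifferentiableOn ℂ G (Rc R R) ∧ (∀ χ ∈ Rc R R, G (-χ) = G χ) ∧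
        (∀ χ ∈ Rc R R, ‖G χ‖ ≤ B ∧ (deriv (deriv G) χ).re ≤ -c' ∧ bet / 2 ≤ (G χ).re) ∧
        GXc R (fun N χ => (N : ℂ) ^ (2 * k) * XN ls N χ) G A ∧
        (∀ χ ∈ Rc R R, (∀ j < 2 * k, z χ j ∈ Rc (R / 2) (R / 2) ∧ 0 < (z χ j).im ∧
            ‖z χ j‖ ≤ 1 / 10 ∧
          Complex.I * cw ls ((j + 1) % (2 * k)) * z χ ((j + 1) % (2 * k)) / (2 * π) + Complex.I +
            deriv (fun w => s (z χ j) w χ) (z χ ((j + 1) % (2 * k))) +
            deriv (fun w => s w (z χ (((j + 1) % (2 * k) + 1) % (2 * k))) χ)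
              (z χ ((j + 1) % (2 * k))) = 0) ∧
          deriv G χ = ∑ j ∈ range (2 * k), deriv (fun w => s (z χ j) (z χ ((j + 1) % (2 * k))) w) χ ∧
          G χ = ∑ j ∈ range (2 * k), (Complex.I * cw ls j * z χ j ^ 2 / (4 * π) +
            Complex.I * z χ j + s (z χ j) (z χ ((j + 1) % (2 * k))) χ)) ∧
        ∀ m : ℝ, (∀ p ∈ ls, m ≤ |(p.1 : ℝ)| ∧ m ≤ |(p.2 : ℝ)|) → 0 < m →
          ‖G 0 - ((4 * k * bet : ℝ) : ℂ)‖ ≤ C' / m

/-- the expansion of the kernel, from its parts -/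
theorem kxd_of (h : S_KXC3) (h1 : S_KXR3) (h2 : S_EMT) (h3 : S_KLOG3) :
    ∀ (ρ₀ c C : ℝ) (s dl : ℂ → ℂ → ℂ → ℂ), SD3 ρ₀ c C s dl →
      ∃ (ρ₂ : ℝ) (A : ℕ → ℂ × ℂ × ℂ → ℂ), ρ₂ ≤ ρ₀ ∧ KXD3 ρ₂ s A :=
  h h1 h2 h3

theorem xlxc_of (h : S_XLX) (h1 : S_WX) (h2 : S_ELX) (h3 : S_LOCN)
    (h4 : ∀ (ρ₀ c C : ℝ) (s dl : ℂ → ℂ → ℂ → ℂ), SD3 ρ₀ c C s dl →
      ∃ (ρ₂ : ℝ) (A : ℕ → ℂ × ℂ × ℂ → ℂ), ρ₂ ≤ ρ₀ ∧ KXD3 ρ₂ s A) : S_XLXC :=
  fun ρ₀ c C s dl hs => h h1 h2 h3 ρ₀ c C s dl hs (h4 ρ₀ c C s dl hs)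

/-! ### Expansions -/

theorem exp_small {κ : ℝ} (hκ : 0 < κ) (K : ℕ) {N : ℕ} (hN : 1 ≤ N) :
    Real.exp (-(N * κ)) ≤ (K.factorial / κ ^ K) / (N : ℝ) ^ K := by
  have hN0 : (0 : ℝ) < N := by exact_mod_cast hN
  have h := Real.pow_div_factorial_le_exp (N * κ) (by positivity) K
  have hf : (0 : ℝ) < K.factorial := by exact_mod_cast K.factorial_pos
  rw [Real.exp_neg, div_div, ← mul_pow, mul_comm κ]
  have h2 : (0 : ℝ) < (N * κ) ^ K / K.factorial := by positivity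
  calc (Real.exp (N * κ))⁻¹ ≤ ((N * κ) ^ K / K.factorial)⁻¹ := inv_anti₀ h2 h
    _ = K.factorial / (N * κ) ^ K := by rw [inv_div]

/-- expansions up to exponentially small terms -/
theorem exy_near {S T : ℕ → ℂ} {V : ℂ} {y : ℕ → ℂ} (l : ℂ) {κ : ℝ} (hκ : 0 < κ)
    (h : EXY T V y) (hST : ∀ᶠ N : ℕ in atTop, ‖S N - l * T N‖ ≤ Real.exp (N * (V.re - κ))) :
    EXY S V (fun k => l * y k) := by
  intro K
  obtain ⟨C, hC⟩ := h K
  refine ⟨‖l‖ * C + K.factorial / κ ^ K, ?_⟩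
  filter_upwards [hC, hST, eventually_ge_atTop 1] with N h1 h2 hN
  have hN0 : (0 : ℝ) < N := by exact_mod_cast hN
  have hN1 : (1 : ℝ) ≤ N := by exact_mod_cast hN
  have hsq : (1 : ℝ) ≤ (Real.sqrt N) ^ 3 := one_le_pow₀ (Real.one_le_sqrt.2 hN1)
  set D : ℂ := ((Real.sqrt N) ^ 3 : ℝ) * Complex.exp (N * V) with hD
  have hDn : Real.exp (N * V.re) ≤ ‖D‖ := by
    rw [hD, norm_mul, Complex.norm_real, Real.norm_eq_abs, abs_of_pos (by positivity),
      Complex.norm_exp]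
    have e1 : ((N : ℂ) * V).re = N * V.re := by simp
    rw [e1]
    exact le_mul_of_one_le_left (Real.exp_pos _).le hsq
  have hD0 : 0 < ‖D‖ := lt_of_lt_of_le (Real.exp_pos _) hDn
  have e : S N / D - ∑ k ∈ range K, l * y k / (N : ℂ) ^ k =
      l * (T N / D - ∑ k ∈ range K, y k / (N : ℂ) ^ k) + (S N - l * T N) / D := by
    rw [mul_sub, mul_sum]
    have : ∀ k ∈ range K, l * y k / (N : ℂ) ^ k = l * (y k / (N : ℂ) ^ k) :=
      fun k _ => mul_div_assoc _ _ _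
    rw [sum_congr rfl this]
    ring
  rw [e]
  refine (norm_add_le _ _).trans ?_
  rw [norm_mul, norm_div]
  have a1 : ‖l‖ * ‖T N / D - ∑ k ∈ range K, y k / (N : ℂ) ^ k‖ ≤ ‖l‖ * (C / (N : ℝ) ^ K) :=
    mul_le_mul_of_nonneg_left h1 (norm_nonneg _)
  have a2 : ‖S N - l * T N‖ / ‖D‖ ≤ (K.factorial / κ ^ K) / (N : ℝ) ^ K := by
    refine le_trans ?_ (exp_small hκ K hN)
    rw [div_le_iff₀ hD0]
    refine h2.trans ?_
    have e2 : Real.exp (N * (V.re - κ)) = Real.exp (-(N * κ)) * Real.exp (N * V.re) := by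
      rw [← Real.exp_add]
      congr 1
      ring
    rw [e2]
    exact mul_le_mul_of_nonneg_left hDn (Real.exp_pos _).le
  rw [add_div, mul_div_assoc]
  exact add_le_add a1 a2

/-- change of the phase -/
theorem exy_phase {a S : ℕ → ℂ} {V : ℂ} {y : ℕ → ℂ} (h : EXY S V y) (hy : y 0 ≠ 0)
    {K0 : ℂ} (hK0 : K0 ≠ 0) (u c : ℂ)
    (ha : ∀ᶠ N : ℕ in atTop, a N = K0 * Complex.exp (N * u) * Complex.exp (c / N) * S N) :
    ∃ y' : ℕ → ℂ, y' 0 ≠ 0 ∧ EXY a (V + u) y' := by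
  have hux := Pool.Agent.W303.AX.uxmul Unit _ _ _ _ _ h.ux (Pool.Agent.W962.AX.ux_exp c)
  refine ⟨fun k => K0 * cv (fun k (_ : Unit) => y k)
    (fun k _ => c ^ k / (k.factorial : ℂ)) k (), ?_, ?_⟩
  · refine mul_ne_zero hK0 ?_
    unfold cv
    simpa using hy
  · intro K
    obtain ⟨C, hC⟩ := hux K
    refine ⟨‖K0‖ * C, ?_⟩
    filter_upwards [hC, ha, eventually_ge_atTop 1] with N hN haN h1
    have hN0 : (0 : ℝ) < N := by exact_mod_cast h1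
    have hNc : (N : ℂ) ≠ 0 := by exact_mod_cast hN0.ne'
    have hb := hN () (Set.mem_univ _)
    have h5 : Complex.exp (N * (V + u)) = Complex.exp (N * V) * Complex.exp (N * u) := by
      rw [← Complex.exp_add]
      congr 1
      ring
    have h6 : (((Real.sqrt N) ^ 3 : ℝ) : ℂ) ≠ 0 := by
      have : (Real.sqrt N) ^ 3 ≠ 0 := pow_ne_zero _ (Real.sqrt_pos.2 hN0).ne'
      exact_mod_cast this
    have key : a N / (((Real.sqrt N) ^ 3 : ℝ) * Complex.exp (N * (V + u))) =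
        K0 * (S N / (((Real.sqrt N) ^ 3 : ℝ) * Complex.exp (N * V)) * Complex.exp (c / N)) := by
      rw [haN, h5]
      have := Complex.exp_ne_zero (N * V)
      have := Complex.exp_ne_zero (N * u)
      field_simp
    rw [key]
    have e3 : ∑ k ∈ range K, K0 * cv (fun k (_ : Unit) => y k)
        (fun k _ => c ^ k / (k.factorial : ℂ)) k () / (N : ℂ) ^ k =
        K0 * ∑ k ∈ range K, cv (fun k (_ : Unit) => y k)
        (fun k _ => c ^ k / (k.factorial : ℂ)) k () / (N : ℂ) ^ k := by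
      rw [mul_sum]
      exact sum_congr rfl fun k _ => mul_div_assoc _ _ _
    rw [e3, ← mul_sub, norm_mul, mul_div_assoc]
    exact mul_le_mul_of_nonneg_left hb (norm_nonneg _)

theorem exy_congr {a b : ℕ → ℂ} {V : ℂ} {y : ℕ → ℂ} (h : EXY a V y)
    (hab : ∀ᶠ N : ℕ in atTop, a N = b N) : EXY b V y := by
  intro K
  obtain ⟨C, hC⟩ := h K
  refine ⟨C, ?_⟩
  filter_upwards [hC, hab] with N h1 h2
  rw [← h2]
  exact h1

/-- the phase -/
theorem pz_eq (N : ℕ) (hN : 0 < N) (ls : List (ℤ × ℤ)) (m : ℤ) : pz N ls m =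
    ((-1) ^ ls.length * (-Complex.I) ^ (wts ls).sum) *
      Complex.exp (N * (-(Complex.I * π * (wts ls).sum / 4))) *
      Complex.exp ((4 * π * Complex.I * m + 3 * π * Complex.I * (wts ls).sum / 4) / N) := by
  unfold pz
  rw [Pool.Agent.W962.AX.kp_zpow N _ hN]
  have h1 : vN N ^ (4 * m) = Complex.exp (4 * π * Complex.I * m / N) := by
    unfold vN
    rw [← Complex.exp_int_mul]
    congr 1
    push_cast
    ring
  rw [h1, add_div, Complex.exp_add]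
  ring

/-! ### The functions `X` -/

/-- the normalised functions -/
noncomputable def XX (ls : List (ℤ × ℤ)) (k : ℕ) (N : ℕ) (χ : ℂ) : ℂ :=
  if 2 ≤ N then (N : ℂ) ^ (2 * k) * XN ls N χ else 1

theorem xx_eq {ls : List (ℤ × ℤ)} {k N : ℕ} (hN : 2 ≤ N) :
    XX ls k N = fun χ => (N : ℂ) ^ (2 * k) * XN ls N χ := by
  funext χ
  simp only [XX, if_pos hN]

theorem xn_eq {ls : List (ℤ × ℤ)} (hls : ls ≠ []) {N : ℕ} (hN : 2 ≤ N) (χ : ℂ) :
    XN ls N χ = (((N : ℂ) / (2 * π)) ^ (2 * ls.length))⁻¹ * Tm N ls χ := by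
  have h1 : (N : ℂ) ≠ 0 := by
    have : N ≠ 0 := by omega
    exact_mod_cast this
  have h2 : (π : ℂ) ≠ 0 := by exact_mod_cast Real.pi_ne_zero
  have h3 : ((N : ℂ) / (2 * π)) ^ (2 * ls.length) ≠ 0 :=
    pow_ne_zero _ (div_ne_zero h1 (mul_ne_zero two_ne_zero h2))
  rw [Pool.Agent.Y590.CB.kf N ls χ hN hls, inv_mul_cancel_left₀ h3]

theorem xx_diff {ls : List (ℤ × ℤ)} (hls : ls ≠ []) (k N : ℕ) : Differentiable ℂ (XX ls k N) := by
  by_cases hN : 2 ≤ N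
  · have : XX ls k N = fun χ => (N : ℂ) ^ (2 * k) *
        ((((N : ℂ) / (2 * π)) ^ (2 * ls.length))⁻¹ * Tm N ls χ) := by
      rw [xx_eq hN]
      funext χ
      rw [xn_eq hls hN]
    rw [this]
    exact (differentiable_const _).mul ((differentiable_const _).mul
      (Pool.Agent.Y833.CB.Tm_diff N ls))
  · have : XX ls k N = fun _ => 1 := by
      funext χ
      simp only [XX, if_neg hN]
    rw [this]
    exact differentiable_const _

theorem xx_even {ls : List (ℤ × ℤ)} (hls : ls ≠ []) (k N : ℕ) (z : ℂ) :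
    XX ls k N (-z) = XX ls k N z := by
  by_cases hN : 2 ≤ N
  · rw [xx_eq hN]
    simp only
    rw [xn_eq hls hN, xn_eq hls hN, Pool.Agent.Y833.CB.Tm_congr N ls (Complex.cos_neg z)]
  · simp only [XX, if_neg hN]

theorem xx_gxc {ls : List (ℤ × ℤ)} {k : ℕ} {R : ℝ} {G : ℂ → ℂ} {A : ℕ → ℂ → ℂ}
    (h : GXc R (fun N χ => (N : ℂ) ^ (2 * k) * XN ls N χ) G A) : GXc R (XX ls k) G A := by
  refine ⟨fun K => ?_, h.an, h.nz⟩
  obtain ⟨C, hC⟩ := h.ux K
  refine ⟨C, ?_⟩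
  filter_upwards [hC, eventually_ge_atTop 2] with N h1 h2 p hp
  rw [xx_eq h2]
  exact h1 p hp

theorem nearS_mul (R : ℝ) (N : ℕ) (b : ℂ) (h : ℂ → ℂ) :
    nearS R N (fun z => b * h z) = b * nearS R N h := by
  unfold nearS
  rw [mul_sum]

theorem pow_split (N k : ℕ) (a : ℂ) : ((N : ℂ) / (2 * π)) ^ (2 * k) * a =
    (1 / (2 * π : ℂ) ^ (2 * k)) * ((N : ℂ) ^ (2 * k) * a) := by
  rw [div_pow]
  ring

theorem near_b (R : ℝ) {N : ℕ} (hN : 2 ≤ N) (ls : List (ℤ × ℤ)) (k : ℕ) (m : ℤ) :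
    ((N : ℂ) / (2 * π)) ^ (2 * k) * nearS R N (deriv fun χ => wE N m χ * XN ls N χ) =
    (1 / (2 * π : ℂ) ^ (2 * k)) * nearS R N (deriv fun χ => wE N m χ * XX ls k N χ) := by
  rw [pow_split]
  congr 1
  have h1 : (deriv fun χ => wE N m χ * XX ls k N χ) =
      fun z => (N : ℂ) ^ (2 * k) * deriv (fun χ => wE N m χ * XN ls N χ) z := by
    funext z
    rw [← deriv_const_mul_field]
    congr 1
    funext χ
    rw [xx_eq hN]
    ring
  rw [h1, nearS_mul]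

theorem near_a (R : ℝ) {N : ℕ} (hN : 2 ≤ N) (ls : List (ℤ × ℤ)) (k : ℕ) (m : ℤ) :
    ((N : ℂ) / (2 * π)) ^ (2 * k) * nearS R N (fun χ => Ea (2 * m) N χ * XN ls N χ) =
    (1 / (2 * π : ℂ) ^ (2 * k)) * nearS R N (fun χ => Ea (2 * m) N χ * XX ls k N χ) := by
  rw [pow_split]
  congr 1
  have h1 : (fun χ => Ea (2 * m) N χ * XX ls k N χ) =
      fun z => (N : ℂ) ^ (2 * k) * (Ea (2 * m) N z * XN ls N z) := by
    funext z
    rw [xx_eq hN]
    ring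
  rw [h1, nearS_mul]

theorem twopi_ne (k : ℕ) : (1 / (2 * π : ℂ) ^ (2 * k)) ≠ 0 := by
  have h2 : (π : ℂ) ≠ 0 := by exact_mod_cast Real.pi_ne_zero
  exact one_div_ne_zero (pow_ne_zero _ (mul_ne_zero two_ne_zero h2))

/-! ### Assembly -/

theorem mx (hEXP : S_EXP) (hNR : S_NR) (hXL : S_XLXC) (hCHI : S_CHIX) : S_MX := by
  obtain ⟨ρ₀, c, C, s, dl, hs⟩ := Pool.Agent.Y641.CB.sd3
  have hbet : 0 < bet := Pool.Agent.Y481.bet_pos
  refine ⟨ρ₀, c, C, s, dl, hs, fun k hk => ?_⟩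
  obtain ⟨R, c', hR, hR1, hRρ, hc', B, C', M1, hB, hC', hM1, HX⟩ := hXL ρ₀ c C s dl hs k hk
  obtain ⟨C2, M2, hC2, hM2, HC⟩ := hCHI R c' B (bet / 2) hR hR1 hc' (half_pos hbet)
  obtain ⟨κ, hκ, HN⟩ := hNR k R hk hR hR1
  set M : ℝ := max M1 (max M2 (max (4 * C' / κ) (max (4 * C2 / κ) (20 * C2)))) with hM
  have m1 : M1 ≤ M := le_max_left _ _
  have m2 : M2 ≤ M := (le_max_left _ _).trans (le_max_right _ _)
  have m3 : 4 * C' / κ ≤ M := (le_max_left _ _).trans ((le_max_right _ _).trans (le_max_right _ _))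
  have m4 : 4 * C2 / κ ≤ M := (le_max_left _ _).trans ((le_max_right _ _).trans
    ((le_max_right _ _).trans (le_max_right _ _)))
  have m5 : 20 * C2 ≤ M := (le_max_right _ _).trans ((le_max_right _ _).trans
    ((le_max_right _ _).trans (le_max_right _ _)))
  have hM0 : 0 < M := lt_of_lt_of_le hM1 m1
  refine ⟨M, fun ls m hlen hls hm => ?_⟩
  have hls0 : ls ≠ [] := by
    rintro rfl
    simp at hlen
    omega
  have hm0 : 0 < |(m : ℝ)| := lt_of_lt_of_le hM0 hm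
  obtain ⟨G, z, A, hGd, hGe, hGb, hGX, hz, hG0⟩ := HX ls hlen
    (fun p hp => ⟨m1.trans (hls p hp).1, m1.trans (hls p hp).2⟩)
  obtain ⟨χ, hχ, hχim, hχn, hχcrit, hχval, y, hy0, hy⟩ := HC (XX ls k) G A (xx_diff hls0 k)
    (xx_even hls0 k) hGd hGe hGb (xx_gxc hGX) m (m2.trans hm)
  have hχR : χ ∈ Rc R R := ⟨by linarith [hχ.1], by linarith [hχ.2]⟩
  obtain ⟨hz1, hz2, hz3⟩ := hz χ hχR
  set V : ℂ := Complex.I * m * χ ^ 2 / (2 * π) + Complex.I * χ + G χ with hV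
  have hRV : RVal3 s (2 * k) (cw ls) m (z χ) χ = V := by
    rw [hV]
    unfold RVal3
    rw [← hz3]
    ring
  have hV1 : |V.re - (G 0).re| ≤ κ / 4 := by
    have h1 : C2 / |(m : ℝ)| ≤ κ / 4 := by
      rw [div_le_div_iff₀ hm0 (by norm_num)]
      have h2 : 4 * C2 ≤ M * κ := by rwa [div_le_iff₀ hκ] at m4
      nlinarith
    have h2 := Complex.abs_re_le_norm (V - G 0)
    rw [Complex.sub_re] at h2
    exact h2.trans (hχval.trans h1)
  have hV2 : |(G 0).re - 4 * k * bet| ≤ κ / 4 := by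
    have h1 : C' / M ≤ κ / 4 := by
      rw [div_le_div_iff₀ hM0 (by norm_num)]
      have h2 : 4 * C' ≤ M * κ := by rwa [div_le_iff₀ hκ] at m3
      nlinarith
    have h2 := Complex.abs_re_le_norm (G 0 - ((4 * k * bet : ℝ) : ℂ))
    rw [Complex.sub_re, Complex.ofReal_re] at h2
    exact h2.trans ((hG0 M hls hM0).trans h1)
  have hVlo : 4 * k * bet - κ / 2 ≤ V.re := by
    have e1 := (abs_le.1 hV1).1
    have e2 := (abs_le.1 hV2).1
    linarith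
  -- the expansion
  have hS : EXY (fun N => SB N ls m) V (fun j => (1 / (2 * π : ℂ) ^ (2 * k)) * y j) := by
    refine exy_near _ (half_pos hκ) hy ?_
    filter_upwards [HN ls m hlen, eventually_ge_atTop 2] with N h1 h2
    rw [← near_b R h2 ls k m]
    refine h1.trans (Real.exp_le_exp.2 (mul_le_mul_of_nonneg_left ?_ (Nat.cast_nonneg N)))
    linarith
  have hK0 : ((-1) ^ ls.length * (-Complex.I) ^ (wts ls).sum : ℂ) ≠ 0 :=
    mul_ne_zero (pow_ne_zero _ (by norm_num)) (zpow_ne_zero _ (neg_ne_zero.2 Complex.I_ne_zero))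
  obtain ⟨y', hy0', hy'⟩ := exy_phase
    (a := fun N => Pool.Agent.H550R3.Jones.cjones N 2 (ftw m ++ bw ls) (vN N)) hS
    (mul_ne_zero (twopi_ne k) hy0) hK0 (-(Complex.I * π * (wts ls).sum / 4))
    (4 * π * Complex.I * m + 3 * π * Complex.I * (wts ls).sum / 4) (by
      filter_upwards [eventually_ge_atTop 2] with N hN
      rw [hEXP N ls m hN hls0, pz_eq N (by omega)])
  refine ⟨z χ, χ, y', ⟨⟨by linarith [hχ.1], by linarith [hχ.2]⟩, hχim, ?_, fun j hj => ?_, ?_⟩,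
    ?_, hy0', ?_⟩
  · refine hχn.trans ?_
    rw [div_le_iff₀ hm0]
    linarith
  · obtain ⟨a1, a2, a3, a4⟩ := hz1 j hj
    exact ⟨⟨by linarith [a1.1], by linarith [a1.2]⟩, a2, a3, a4⟩
  · rw [← hz2]
    exact hχcrit
  · refine hχn.trans_lt ?_
    rw [div_lt_iff₀ hm0]
    linarith
  · rw [hRV]
    have e : V - π * Complex.I / 4 * (wts ls).sum = V + -(Complex.I * π * (wts ls).sum / 4) := by
      ring
    rw [e]
    exact hy'

theorem mxa (hAXP : S_AXP) (hNRA : S_NRA) (hXL : S_XLXC) (hAXX : S_AXX) : S_MXA := by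
  obtain ⟨ρ₀, c, C, s, dl, hs⟩ := Pool.Agent.Y641.CB.sd3
  refine ⟨ρ₀, c, C, s, dl, hs, fun k hk => ?_⟩
  obtain ⟨R, c', hR, hR1, hRρ, hc', B, C', M1, hB, hC', hM1, HX⟩ := hXL ρ₀ c C s dl hs k hk
  obtain ⟨κ, hκ, HN⟩ := hNRA k R hk hR hR1
  set M : ℝ := max M1 (4 * C' / κ) with hM
  have m1 : M1 ≤ M := le_max_left _ _
  have m3 : 4 * C' / κ ≤ M := le_max_right _ _
  have hM0 : 0 < M := lt_of_lt_of_le hM1 m1
  refine ⟨M, fun ls m hlen hls => ?_⟩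
  have hls0 : ls ≠ [] := by
    rintro rfl
    simp at hlen
    omega
  obtain ⟨G, z, A, hGd, hGe, hGb, hGX, hz, hG0⟩ := HX ls hlen
    (fun p hp => ⟨m1.trans (hls p hp).1, m1.trans (hls p hp).2⟩)
  obtain ⟨y, hy0, hy⟩ := hAXX R c' B hR hR1 hc' (XX ls k) G A (xx_diff hls0 k)
    (xx_even hls0 k) hGd hGe (fun w hw => ⟨(hGb w hw).1, (hGb w hw).2.1⟩) (xx_gxc hGX) m
  have h0R : (0 : ℂ) ∈ Rc R R := ⟨by simpa using hR, by simpa using hR⟩
  obtain ⟨hz1, hz2, hz3⟩ := hz 0 h0R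
  have hRV : RVal0 s (2 * k) (cw ls) (z 0) = G 0 := by
    unfold RVal0
    rw [← hz3]
  have hV2 : |(G 0).re - 4 * k * bet| ≤ κ / 4 := by
    have h1 : C' / M ≤ κ / 4 := by
      rw [div_le_div_iff₀ hM0 (by norm_num)]
      have h2 : 4 * C' ≤ M * κ := by rwa [div_le_iff₀ hκ] at m3
      nlinarith
    have h2 := Complex.abs_re_le_norm (G 0 - ((4 * k * bet : ℝ) : ℂ))
    rw [Complex.sub_re, Complex.ofReal_re] at h2
    exact h2.trans ((hG0 M hls hM0).trans h1)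
  have hVlo : 4 * k * bet - κ / 4 ≤ (G 0).re := by
    have e2 := (abs_le.1 hV2).1
    linarith
  have hS : EXY (fun N => N * SA N ls m) (G 0) (fun j => (1 / (2 * π : ℂ) ^ (2 * k)) * y j) := by
    refine exy_near _ (half_pos hκ) hy ?_
    have hbig : ∀ᶠ N : ℕ in atTop, 32 / κ ^ 2 ≤ (N : ℝ) :=
      tendsto_natCast_atTop_atTop.eventually_ge_atTop _
    filter_upwards [HN ls m hlen, eventually_ge_atTop 2, hbig] with N h1 h2 h3
    have hN0 : (0 : ℝ) < N := by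
      have : 0 < N := by omega
      exact_mod_cast this
    have e : (N : ℂ) * SA N ls m - (1 / (2 * π : ℂ) ^ (2 * k)) *
        (N * nearS R N (fun χ => Ea (2 * m) N χ * XX ls k N χ)) =
        N * (SA N ls m - ((N : ℂ) / (2 * π)) ^ (2 * k) *
          nearS R N (fun χ => Ea (2 * m) N χ * XN ls N χ)) := by
      rw [near_a R h2 ls k m]
      ring
    rw [e, norm_mul, Complex.norm_natCast]
    have h4 : (N : ℝ) ≤ Real.exp (N * (κ / 4)) := by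
      have h5 := Real.pow_div_factorial_le_exp (N * (κ / 4)) (by positivity) 2
      refine le_trans ?_ h5
      have h6 : (Nat.factorial 2 : ℝ) = 2 := by norm_num [Nat.factorial]
      rw [h6, le_div_iff₀ (by norm_num)]
      rw [div_le_iff₀ (by positivity)] at h3
      have h7 : (N * (κ / 4)) ^ 2 = N * (N * κ ^ 2) / 16 := by ring
      rw [h7]
      have h8 : N * 32 ≤ N * (N * κ ^ 2) := mul_le_mul_of_nonneg_left h3 hN0.le
      linarith
    calc (N : ℝ) * ‖SA N ls m - ((N : ℂ) / (2 * π)) ^ (2 * k) *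
          nearS R N (fun χ => Ea (2 * m) N χ * XN ls N χ)‖
        ≤ Real.exp (N * (κ / 4)) * Real.exp (N * (4 * k * bet - κ)) :=
          mul_le_mul h4 h1 (norm_nonneg _) (Real.exp_pos _).le
      _ = Real.exp (N * (4 * k * bet - κ / 4 - κ / 2)) := by
          rw [← Real.exp_add]; congr 1; ring
      _ ≤ Real.exp (N * ((G 0).re - κ / 2)) := by
          refine Real.exp_le_exp.2 (mul_le_mul_of_nonneg_left ?_ hN0.le)
          linarith
  have hK0 : ((-1) ^ ls.length * (-Complex.I) ^ (wts ls).sum : ℂ) ≠ 0 :=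
    mul_ne_zero (pow_ne_zero _ (by norm_num)) (zpow_ne_zero _ (neg_ne_zero.2 Complex.I_ne_zero))
  obtain ⟨y', hy0', hy'⟩ := exy_phase
    (a := fun N => (Pool.Agent.W715.VC.rep3 N (ftw m ++ bw ls)).trace) hS
    (mul_ne_zero (twopi_ne k) hy0) hK0 (-(Complex.I * π * (wts ls).sum / 4))
    (4 * π * Complex.I * m + 3 * π * Complex.I * (wts ls).sum / 4) (by
      filter_upwards [eventually_ge_atTop 2] with N hN
      rw [hAXP N ls m hN hls0, pz_eq N (by omega)]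
      ring)
  refine ⟨z 0, y', fun j hj => ?_, hy0', ?_⟩
  · obtain ⟨a1, a2, a3, a4⟩ := hz1 j hj
    exact ⟨⟨by linarith [a1.1], by linarith [a1.2]⟩, a2, a3, a4⟩
  · rw [hRV]
    have e : G 0 - π * Complex.I / 4 * (wts ls).sum =
        G 0 + -(Complex.I * π * (wts ls).sum / 4) := by
      ring
    rw [e]
    exact hy'

/-- assembly of all parts: the closed braid -/
theorem mx_all (hEXP : S_EXP) (hNR : S_NR) (hXLX : S_XLX) (hWX : S_WX) (hELX : S_ELX)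
    (hLOCN : S_LOCN) (hKXC : S_KXC3) (hKXR : S_KXR3) (hEMT : S_EMT) (hKLOG : S_KLOG3)
    (hCHI : S_CHIX) : S_MX :=
  mx hEXP hNR (xlxc_of hXLX hWX hELX hLOCN (kxd_of hKXC hKXR hEMT hKLOG)) hCHI

/-- assembly of all parts: the closed braid with its axis -/
theorem mxa_all (hAXP : S_AXP) (hNRA : S_NRA) (hXLX : S_XLX) (hWX : S_WX) (hELX : S_ELX)
    (hLOCN : S_LOCN) (hKXC : S_KXC3) (hKXR : S_KXR3) (hEMT : S_EMT) (hKLOG : S_KLOG3)
    (hAXX : S_AXX) : S_MXA :=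
  mxa hAXP hNRA (xlxc_of hXLX hWX hELX hLOCN (kxd_of hKXC hKXR hEMT hKLOG)) hAXX

end Pool.Agent.Y852.PH.MX
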