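import Pool.Agent.Y482.Ph.Defs
import Pool.Agent.W249.AX.KLog
import Pool.Agent.Y967.CB.Mwk3
import Pool.Agent.Y288.CB.KB3
import Pool.Agent.Y288.CB.TB0
import Pool.Agent.Y105.CB.Rho

/-!
# KLOG3: holomorphic logarithm of the kernel of an edge, three variables
-/

set_option autoImplicit false

namespace Pool.Agent.Y852.PH.KLog3

open Finset Filter Topology Metric
open Pool.Agent.W711.HT
open Pool.Agent.Y472
open Pool.Agent.Y482.Ph
open Pool.Agent.W249.AX (ex_log real_log bc_chain rc_open rc_convex rrF_real ssF_real Rp_diff)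
open scoped Real

/-! ### Real points -/

theorem rp_real (N d : ℕ) (a : ℝ) : Rp N d (a : ℂ) =
    ((∏ j ∈ range d, (2 * Real.cos a + 2 * Real.cos (phi N j)) : ℝ) : ℂ) := by
  simp only [Rp]
  push_cast
  rfl

theorem tg_real (N d : ℕ) (a : ℝ) : Tg N d (a : ℂ) =
    (((if N % 2 = 0 then 2 * Real.cos (a / 2) else 1) *
      ∏ t ∈ Ioc d ((N - 1) / 2), (2 * Real.cos a - 2 * Real.cos (2 * π * t / N)) : ℝ) : ℂ) := by
  simp only [Tg]
  split_ifs <;> push_cast <;> rfl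

theorem kh_eq (N : ℕ) (a b e : ℝ) : kh N (a : ℂ) (b : ℂ) (e : ℂ) =
    ((∑ d ∈ range ((N - 1) / 2 + 1),
      (∏ j ∈ range d, (2 * Real.cos a + 2 * Real.cos (phi N j))) *
      (∏ j ∈ range d, (2 * Real.cos b + 2 * Real.cos (phi N j))) *
      ((if N % 2 = 0 then 2 * Real.cos (e / 2) else 1) *
        ∏ t ∈ Ioc d ((N - 1) / 2), (2 * Real.cos e - 2 * Real.cos (2 * π * t / N))) /
      (Sd N d) ^ 2 : ℝ) : ℂ) := by
  simp only [kh]
  rw [Complex.ofReal_sum]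
  refine Finset.sum_congr rfl fun d _ => ?_
  rw [rp_real, rp_real, tg_real]
  simp only [Complex.ofReal_mul, Complex.ofReal_div, Complex.ofReal_pow]

theorem kh_real (N : ℕ) (a b e : ℝ) : (kh N (a : ℂ) (b : ℂ) (e : ℂ)).im = 0 := by
  rw [kh_eq, Complex.ofReal_im]

theorem kh_zero_nonneg (N : ℕ) : 0 ≤ (kh N 0 0 0).re := by
  have h := kh_eq N 0 0 0
  simp only [Complex.ofReal_zero] at h
  rw [h, Complex.ofReal_re]
  apply Finset.sum_nonneg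
  intro d _
  apply div_nonneg _ (sq_nonneg _)
  apply mul_nonneg (mul_self_nonneg _)
  apply mul_nonneg
  · split_ifs
    · simp
    · norm_num
  · apply Finset.prod_nonneg
    intro t _
    have := Real.cos_le_one (2 * π * t / N)
    rw [Real.cos_zero]
    linarith

theorem dl_real {ρ₀ c C : ℝ} {s dl : ℂ → ℂ → ℂ → ℂ} (h : SD3 ρ₀ c C s dl) {a b e : ℝ}
    (ha : (a : ℂ) ∈ Rc ρ₀ ρ₀) (hb : (b : ℂ) ∈ Rc ρ₀ ρ₀) (he : (e : ℂ) ∈ Rc ρ₀ ρ₀) :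
    (dl a b e).im = 0 ∧ 3 / 16 ≤ (dl a b e).re ∧ (dl a b e).re ≤ 5 / 16 := by
  have h1 := (h.dclose a ha b hb e he).1
  have h2 := h.dcos a ha b hb e he
  have h3 : |(dl a b e).re - 1 / 4| ≤ 1 / 16 := by
    have h4 := Complex.abs_re_le_norm (dl a b e - 1 / 4)
    have h5 : (dl a b e - 1 / 4 : ℂ).re = (dl a b e).re - 1 / 4 := by simp
    rw [h5] at h4
    exact h4.trans h1
  have h3' := abs_le.mp h3
  refine ⟨?_, by linarith, by linarith⟩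
  have c2 : (starRingEnd ℂ) 2 = 2 := map_ofNat (starRingEnd ℂ) 2
  have h6 : Complex.cos (2 * π * dl a b e) =
      Complex.cos (2 * π * (starRingEnd ℂ) (dl a b e)) := by
    have h7 : (starRingEnd ℂ) (Complex.cos (2 * π * dl a b e)) =
        Complex.cos (2 * π * dl a b e) := by
      rw [h2]
      simp [← Complex.cos_conj, c2]
    rw [← h7, ← Complex.cos_conj]
    simp [c2]
  rw [Complex.cos_eq_cos_iff] at h6
  obtain ⟨k, hk | hk⟩ := h6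
  · have h8 := congrArg Complex.re hk
    have h9 := congrArg Complex.im hk
    simp at h8 h9
    nlinarith [Real.pi_pos]
  · exfalso
    have h8 := congrArg Complex.re hk
    simp at h8
    have h9 : (dl a b e).re * 2 = k := by
      have := Real.pi_pos
      nlinarith
    have h10 : (0 : ℝ) < (k : ℝ) := by linarith
    have h11 : (k : ℝ) < 1 := by linarith
    have h12 : (0 : ℤ) < k := by exact_mod_cast h10
    have h13 : k < 1 := by exact_mod_cast h11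
    omega

theorem s_real {ρ₀ c C : ℝ} {s dl : ℂ → ℂ → ℂ → ℂ} (h : SD3 ρ₀ c C s dl) {a b e : ℝ}
    (ha : (a : ℂ) ∈ Rc ρ₀ ρ₀) (hb : (b : ℂ) ∈ Rc ρ₀ ρ₀) (he : (e : ℂ) ∈ Rc ρ₀ ρ₀)
    (ha' : |a| ≤ 3 / 4) (hb' : |b| ≤ 3 / 4) (he' : |e| ≤ 3 / 4) :
    (s a b e).im = 0 := by
  obtain ⟨h1, h2, h3⟩ := dl_real h ha hb he
  have h4 : dl a b e = (((dl a b e).re : ℝ) : ℂ) := by
    apply Complex.ext <;> simp [h1]
  rw [h.scrit a ha b hb e he, h4]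
  have e1 := rrF_real (δ := (dl a b e).re) (by linarith) h3 ha'
  have e2 := rrF_real (δ := (dl a b e).re) (by linarith) h3 hb'
  have e3 := rrF_real (δ := 1 / 2 - (dl a b e).re) (by linarith) (by linarith) he'
  have e4 := ssF_real (δ := (dl a b e).re) (by linarith) h3
  push_cast at e3
  rw [Complex.sub_im, Complex.add_im, Complex.add_im, e1, e2, e3]
  have e5 : (2 * ssF (((dl a b e).re : ℝ) : ℂ)).im = 0 := by simp [e4]
  rw [e5]
  norm_num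

theorem kx3_real {ρ₀ c C : ℝ} {s dl : ℂ → ℂ → ℂ → ℂ} (h : SD3 ρ₀ c C s dl) {R : ℝ} (hR : R ≤ ρ₀)
    (hR' : R ≤ 3 / 4) (N : ℕ) {x : ℂ × ℂ × ℂ}
    (h1 : x.1 ∈ Rc R R) (h2 : x.2.1 ∈ Rc R R) (h3 : x.2.2 ∈ Rc R R) (h4 : x.1.im = 0)
    (h5 : x.2.1.im = 0) (h6 : x.2.2.im = 0) : (kx3 s N x).im = 0 := by
  obtain ⟨p, q, r⟩ := x
  simp only at h1 h2 h3 h4 h5 h6
  have hsub : ∀ z ∈ Rc R R, z ∈ Rc ρ₀ ρ₀ := fun z hz =>
    ⟨lt_of_lt_of_le hz.1 hR, lt_of_lt_of_le hz.2 hR⟩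
  have hp : p = ((p.re : ℝ) : ℂ) := by apply Complex.ext <;> simp [h4]
  have hq : q = ((q.re : ℝ) : ℂ) := by apply Complex.ext <;> simp [h5]
  have hr : r = ((r.re : ℝ) : ℂ) := by apply Complex.ext <;> simp [h6]
  have a1 : |p.re| ≤ 3 / 4 := h1.1.le.trans hR'
  have a2 : |q.re| ≤ 3 / 4 := h2.1.le.trans hR'
  have a3 : |r.re| ≤ 3 / 4 := h3.1.le.trans hR'
  rw [hp] at h1
  rw [hq] at h2
  rw [hr] at h3
  rw [hp, hq, hr]
  have e1 := s_real h (hsub _ h1) (hsub _ h2) (hsub _ h3) a1 a2 a3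
  have e2 := kh_real N p.re q.re r.re
  have e3 : s (p.re : ℂ) (q.re : ℂ) (r.re : ℂ) =
      (((s (p.re : ℂ) (q.re : ℂ) (r.re : ℂ)).re : ℝ) : ℂ) := by
    apply Complex.ext <;> simp [e1]
  have e4 : kh N (p.re : ℂ) (q.re : ℂ) (r.re : ℂ) =
      (((kh N (p.re : ℂ) (q.re : ℂ) (r.re : ℂ)).re : ℝ) : ℂ) := by
    apply Complex.ext <;> simp [e2]
  simp only [kx3]
  rw [e3, e4]
  have e5 : Complex.exp (-((N : ℂ) * (((s (p.re : ℂ) (q.re : ℂ) (r.re : ℂ)).re : ℝ) : ℂ))) =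
      ((Real.exp (-((N : ℝ) * (s (p.re : ℂ) (q.re : ℂ) (r.re : ℂ)).re)) : ℝ) : ℂ) := by
    push_cast
    rfl
  rw [e5, ← Complex.ofReal_mul, ← Complex.ofReal_mul, Complex.ofReal_im]

theorem kx3_zero_pos {ρ₀ c C : ℝ} {s dl : ℂ → ℂ → ℂ → ℂ} (h : SD3 ρ₀ c C s dl) {N : ℕ}
    (hN : 0 < N) (h0 : kh N 0 0 0 ≠ 0) : 0 < (kx3 s N 0).re := by
  have e2 : (kh N (0 : ℂ) (0 : ℂ) (0 : ℂ)).im = 0 := by
    have := kh_real N 0 0 0
    simpa using this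
  have e4 : kh N (0 : ℂ) (0 : ℂ) (0 : ℂ) = (((kh N (0 : ℂ) (0 : ℂ) (0 : ℂ)).re : ℝ) : ℂ) := by
    apply Complex.ext <;> simp [e2]
  have e6 : 0 < (kh N 0 0 0).re := by
    rcases (kh_zero_nonneg N).eq_or_lt with h' | h'
    · exfalso
      apply h0
      rw [e4, ← h', Complex.ofReal_zero]
    · exact h'
  simp only [kx3, Prod.fst_zero, Prod.snd_zero]
  rw [h.zero, e4]
  have e5 : Complex.exp (-((N : ℂ) * ((2 * bet : ℝ) : ℂ))) =
      ((Real.exp (-((N : ℝ) * (2 * bet))) : ℝ) : ℂ) := by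
    push_cast
    rfl
  rw [e5, ← Complex.ofReal_mul, ← Complex.ofReal_mul, Complex.ofReal_re]
  have hN' : (0 : ℝ) < N := by exact_mod_cast hN
  have := Real.sqrt_pos.mpr hN'
  positivity

/-! ### Differentiability and modulus -/

theorem Tg_diff (N d : ℕ) : Differentiable ℂ (fun z => Tg N d z) := by
  unfold Tg
  split_ifs <;> fun_prop

theorem kx3_diff {ρ₀ c C : ℝ} {s dl : ℂ → ℂ → ℂ → ℂ} (h : SD3 ρ₀ c C s dl) (N : ℕ) :
    DifferentiableOn ℂ (kx3 s N) (Rc ρ₀ ρ₀ ×ˢ Rc ρ₀ ρ₀ ×ˢ Rc ρ₀ ρ₀) := by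
  have h1 := h.san
  have h2 : Differentiable ℂ (fun x : ℂ × ℂ × ℂ => kh N x.1 x.2.1 x.2.2) := by
    unfold kh
    apply Differentiable.fun_sum
    intro d _
    have e1 : Differentiable ℂ (fun x : ℂ × ℂ × ℂ => Rp N d x.1) :=
      (Rp_diff N d).comp differentiable_fst
    have e2 : Differentiable ℂ (fun x : ℂ × ℂ × ℂ => Rp N d x.2.1) :=
      (Rp_diff N d).comp (differentiable_fst.comp differentiable_snd)
    have e3 : Differentiable ℂ (fun x : ℂ × ℂ × ℂ => Tg N d x.2.2) :=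
      (Tg_diff N d).comp (differentiable_snd.comp differentiable_snd)
    simp only [div_eq_mul_inv]
    exact ((e1.mul e2).mul e3).mul_const _
  unfold kx3
  have h3 : DifferentiableOn ℂ (fun x : ℂ × ℂ × ℂ => Complex.exp (-((N : ℂ) * s x.1 x.2.1 x.2.2)))
      (Rc ρ₀ ρ₀ ×ˢ Rc ρ₀ ρ₀ ×ˢ Rc ρ₀ ρ₀) := (h1.const_mul _).neg.cexp
  exact (h3.const_mul _).mul h2.differentiableOn

theorem kx3_mod {s : ℂ → ℂ → ℂ → ℂ} {N : ℕ} (hN : 0 < N) {x : ℂ × ℂ × ℂ}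
    (h0 : kh N x.1 x.2.1 x.2.2 ≠ 0)
    (h1 : |Real.log ‖kh N x.1 x.2.1 x.2.2‖ - N * (s x.1 x.2.1 x.2.2).re| ≤ 1 * N) :
    kx3 s N x ≠ 0 ∧ |Real.log ‖kx3 s N x‖| ≤ 4 * N := by
  have hN' : (0 : ℝ) < N := by exact_mod_cast hN
  have hsq := Real.sqrt_pos.mpr hN'
  have hne : (((Real.sqrt N : ℝ)) : ℂ) ≠ 0 := by
    rw [Complex.ofReal_ne_zero]; positivity
  refine ⟨mul_ne_zero (mul_ne_zero hne (Complex.exp_ne_zero _)) h0, ?_⟩
  have h2 : Real.log ‖kx3 s N x‖ = 1 / 2 * Real.log N - N * (s x.1 x.2.1 x.2.2).re +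
      Real.log ‖kh N x.1 x.2.1 x.2.2‖ := by
    simp only [kx3]
    rw [norm_mul, norm_mul, Real.log_mul (mul_ne_zero (norm_ne_zero_iff.mpr hne)
      (norm_ne_zero_iff.mpr (Complex.exp_ne_zero _))) (norm_ne_zero_iff.mpr h0),
      Real.log_mul (norm_ne_zero_iff.mpr hne) (norm_ne_zero_iff.mpr (Complex.exp_ne_zero _)),
      Complex.norm_real, Real.norm_eq_abs, abs_of_pos (by positivity),
      Real.log_sqrt hN'.le, Complex.norm_exp, Real.log_exp]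
    have e1 : (-((N : ℂ) * s x.1 x.2.1 x.2.2)).re = -(N * (s x.1 x.2.1 x.2.2).re) := by simp
    rw [e1]
    ring
  have h3 : Real.log N ≤ N := (Real.log_le_sub_one_of_pos hN').trans (by linarith)
  have h4 : 0 ≤ Real.log N := Real.log_nonneg (by exact_mod_cast hN)
  have h5 := abs_le.mp h1
  rw [h2, abs_le]
  constructor <;> linarith

theorem ball_rc {R : ℝ} {p : ℂ × ℂ × ℂ}
    (hp : p ∈ Rc (R / 3) (R / 3) ×ˢ Rc (R / 3) (R / 3) ×ˢ Rc (R / 3) (R / 3)) :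
    ball p (2 * (R / 3)) ⊆ Rc R R ×ˢ Rc R R ×ˢ Rc R R := by
  have key : ∀ z w : ℂ, z ∈ Rc (R / 3) (R / 3) → dist w z < 2 * (R / 3) → w ∈ Rc R R := by
    intro z w hz hw
    rw [dist_eq_norm] at hw
    have h1 := Complex.abs_re_le_norm (w - z)
    have h2 := Complex.abs_im_le_norm (w - z)
    rw [Complex.sub_re] at h1
    rw [Complex.sub_im] at h2
    have h3 := hz.1
    have h4 := hz.2
    have h5 : |w.re| ≤ |w.re - z.re| + |z.re| := by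
      have := abs_add_le (w.re - z.re) z.re
      rwa [sub_add_cancel] at this
    have h6 : |w.im| ≤ |w.im - z.im| + |z.im| := by
      have := abs_add_le (w.im - z.im) z.im
      rwa [sub_add_cancel] at this
    exact ⟨by linarith, by linarith⟩
  intro w hw
  rw [mem_ball, Prod.dist_eq, max_lt_iff, Prod.dist_eq, max_lt_iff] at hw
  exact ⟨key _ _ hp.1 hw.1, key _ _ hp.2.1 hw.2.1, key _ _ hp.2.2 hw.2.2⟩

theorem klog3 : S_KLOG3 := by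
  intro ρ₀ c C s dl h
  obtain ⟨ρ₁, hρ₁, hρ₁', hmw⟩ := Pool.Agent.Y967.CB.MW.mwk3
    (Pool.Agent.Y288.CB.kb3 Pool.Agent.Y288.CB.tb0 Pool.Agent.Y105.CB.rho) ρ₀ c C s dl h
  obtain ⟨R, hR, hR1, hR2⟩ : ∃ R : ℝ, 0 < R ∧ R ≤ ρ₁ ∧ R ≤ 3 / 4 :=
    ⟨min ρ₁ (3 / 4), lt_min hρ₁ (by norm_num), min_le_left _ _, min_le_right _ _⟩
  have hR0 : R ≤ ρ₀ := hR1.trans hρ₁'
  have hr : 0 < R / 3 := by positivity
  set U : Set (ℂ × ℂ × ℂ) := Rc R R ×ˢ Rc R R ×ˢ Rc R R with hU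
  set K : Set (ℂ × ℂ × ℂ) := Rc (R / 3) (R / 3) ×ˢ Rc (R / 3) (R / 3) ×ˢ Rc (R / 3) (R / 3) with hK
  have hUo : IsOpen U := (rc_open _ _).prod ((rc_open _ _).prod (rc_open _ _))
  have hUc : Convex ℝ U := (rc_convex _ _).prod ((rc_convex _ _).prod (rc_convex _ _))
  have hKc : Convex ℝ K := (rc_convex _ _).prod ((rc_convex _ _).prod (rc_convex _ _))
  have z1 : (0 : ℂ) ∈ Rc (R / 3) (R / 3) := ⟨by simpa using hR, by simpa using hR⟩
  have z3 : (0 : ℂ) ∈ Rc R R := ⟨by simpa using hR, by simpa using hR⟩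
  have hU0 : (0 : ℂ × ℂ × ℂ) ∈ U := ⟨z3, z3, z3⟩
  have hK0 : (0 : ℂ × ℂ × ℂ) ∈ K := ⟨z1, z1, z1⟩
  have hRcsub : ∀ z ∈ Rc (R / 3) (R / 3), z ∈ Rc R R := by
    intro z hz
    exact ⟨by linarith [hz.1], by linarith [hz.2]⟩
  have hsub0 : ∀ z ∈ Rc R R, z ∈ Rc ρ₀ ρ₀ := fun z hz =>
    ⟨lt_of_lt_of_le hz.1 hR0, lt_of_lt_of_le hz.2 hR0⟩
  have hsub1 : ∀ z ∈ Rc R R, z ∈ Rc ρ₁ ρ₁ := fun z hz =>
    ⟨lt_of_lt_of_le hz.1 hR1, lt_of_lt_of_le hz.2 hR1⟩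
  have hKU : K ⊆ U := fun x hx => ⟨hRcsub _ hx.1, hRcsub _ hx.2.1, hRcsub _ hx.2.2⟩
  -- the logarithm for large N
  have hex : ∀ᶠ N : ℕ in atTop, ∃ L : ℂ × ℂ × ℂ → ℂ, DifferentiableOn ℂ L U ∧
      (∀ x ∈ U, Complex.exp (L x) = kx3 s N x) ∧ (L 0).im = 0 ∧
      (∀ x ∈ U, |(L x).re| ≤ 4 * N) := by
    filter_upwards [hmw 1 one_pos, eventually_gt_atTop 0] with N hmwN hN
    have hne : ∀ x ∈ U, kx3 s N x ≠ 0 ∧ |Real.log ‖kx3 s N x‖| ≤ 4 * N := by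
      intro x hx
      have := hmwN x.1 (hsub1 _ hx.1) x.2.1 (hsub1 _ hx.2.1) x.2.2 (hsub1 _ hx.2.2)
      exact kx3_mod hN this.1 this.2
    have hpos := kx3_zero_pos h hN (hmwN 0 (hsub1 _ z3) 0 (hsub1 _ z3) 0 (hsub1 _ z3)).1
    have him0 : (kx3 s N 0).im = 0 := kx3_real h hR0 hR2 N (by simpa using z3)
      (by simpa using z3) (by simpa using z3) (by simp) (by simp) (by simp)
    have hl : Complex.exp ((Real.log (kx3 s N 0).re : ℝ) : ℂ) = kx3 s N 0 := by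
      rw [← Complex.ofReal_exp, Real.exp_log hpos]
      apply Complex.ext <;> simp [him0]
    have hd : DifferentiableOn ℂ (kx3 s N) U := (kx3_diff h N).mono
      fun x hx => ⟨hsub0 _ hx.1, hsub0 _ hx.2.1, hsub0 _ hx.2.2⟩
    obtain ⟨L, hL1, hL2, hL3⟩ := ex_log hUo hUc hd (fun x hx => (hne x hx).1) hU0 hl
    refine ⟨L, hL1, hL2, by rw [hL3]; exact Complex.ofReal_im _, ?_⟩
    intro x hx
    have h1 := (hne x hx).2
    rwa [← hL2 x hx, Complex.norm_exp, Real.log_exp] at h1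
  classical
  refine ⟨R / 3, (6 * (2 : ℕ) + 1) * 4, fun N => if hN : ∃ L : ℂ × ℂ × ℂ → ℂ,
      DifferentiableOn ℂ L U ∧
      (∀ x ∈ U, Complex.exp (L x) = kx3 s N x) ∧ (L 0).im = 0 ∧
      (∀ x ∈ U, |(L x).re| ≤ 4 * N) then fun p q r => hN.choose (p, q, r) else fun _ _ _ => 0,
      hr, by linarith, ?_⟩
  filter_upwards [hex, eventually_gt_atTop 0] with N hN hN0
  have hNp : (0 : ℝ) < N := by exact_mod_cast hN0
  simp only [dif_pos hN]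
  obtain ⟨hL1, hL2, hL3, hL4⟩ := hN.choose_spec
  set L := hN.choose with hLdef
  clear_value L
  refine ⟨?_, ?_, ?_, ?_⟩
  · intro q hq r hr'
    have e1 : DifferentiableOn ℂ (fun p : ℂ => (p, q, r)) (Rc (R / 3) (R / 3)) := by fun_prop
    exact (hL1.comp e1 (fun p hp => ⟨hRcsub _ hp, hRcsub _ hq, hRcsub _ hr'⟩))
  · intro p hp r hr'
    have e1 : DifferentiableOn ℂ (fun q : ℂ => (p, q, r)) (Rc (R / 3) (R / 3)) := by fun_prop
    exact (hL1.comp e1 (fun q hq => ⟨hRcsub _ hp, hRcsub _ hq, hRcsub _ hr'⟩))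
  · intro p hp q hq
    have e1 : DifferentiableOn ℂ (fun r : ℂ => (p, q, r)) (Rc (R / 3) (R / 3)) := by fun_prop
    exact (hL1.comp e1 (fun r hr' => ⟨hRcsub _ hp, hRcsub _ hq, hRcsub _ hr'⟩))
  · intro p hp q hq r hr'
    have hx : (p, q, r) ∈ K := ⟨hp, hq, hr'⟩
    refine ⟨?_, hL2 _ (hKU hx), ?_⟩
    · have hnorm : ‖((p, q, r) : ℂ × ℂ × ℂ)‖ ≤ (2 : ℕ) * (R / 3) := by
        have key : ∀ z ∈ Rc (R / 3) (R / 3), ‖z‖ ≤ (2 : ℕ) * (R / 3) := by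
          intro z hz
          have h1 := Complex.norm_le_abs_re_add_abs_im z
          have h2 := hz.1
          have h3 := hz.2
          push_cast
          linarith
        rw [Prod.norm_def, Prod.norm_def]
        exact max_le (key _ hp) (max_le (key _ hq) (key _ hr'))
      have := bc_chain hKc hK0 hL1 (by positivity : (0 : ℝ) < 4 * N) hr hL4
        (fun p hp => ball_rc hp) hL3 (by norm_num : 0 < 2) hx hnorm
      linarith
    · intro h1 h2 h3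
      have hSc : Convex ℝ {x : ℂ × ℂ × ℂ | x ∈ U ∧ x.1.im = 0 ∧ x.2.1.im = 0 ∧ x.2.2.im = 0} := by
        intro x hx y hy a b ha hb hab
        refine ⟨hUc hx.1 hy.1 ha hb hab, ?_, ?_, ?_⟩
        · simp [hx.2.1, hy.2.1]
        · simp [hx.2.2.1, hy.2.2.1]
        · simp [hx.2.2.2, hy.2.2.2]
      have hxS : ((p, q, r) : ℂ × ℂ × ℂ) ∈
          {x : ℂ × ℂ × ℂ | x ∈ U ∧ x.1.im = 0 ∧ x.2.1.im = 0 ∧ x.2.2.im = 0} :=
        ⟨hKU hx, h1, h2, h3⟩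
      have h0S : (0 : ℂ × ℂ × ℂ) ∈
          {x : ℂ × ℂ × ℂ | x ∈ U ∧ x.1.im = 0 ∧ x.2.1.im = 0 ∧ x.2.2.im = 0} :=
        ⟨hU0, by simp, by simp, by simp⟩
      refine real_log hSc.isPreconnected (hL1.continuousOn.mono (fun x hx => hx.1)) ?_ h0S hL3 hxS
      intro x hx
      rw [hL2 x hx.1]
      exact kx3_real h hR0 hR2 N hx.1.1 hx.1.2.1 hx.1.2.2 hx.2.1 hx.2.2.1 hx.2.2.2

end Pool.Agent.Y852.PH.KLog3
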